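import Mathlib
import Pool.Agent.VM5.StmtsB
import Pool.Agent.Helper48_VM5.Cub

/-!
# CUw (squad VMG): the number of `h` with `gcd (h, u) = g`, `κ h ^ 3` in a set of residues and
`ρ h ^ 3` close to the corresponding numbers
-/

set_option autoImplicit false

namespace Pool.Agent.VM5.H39

/-- One residue, in an interval. -/
theorem fibY (N u g : ℕ) (κ τ : ℤ) (hu : 1 ≤ u) (hg : 1 ≤ g) (C ε : ℝ) (hC : 0 < C) (hε : 0 < ε)
    (hroots : ∀ u : ℕ, 1 ≤ u →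
      (((Finset.range u).filter (fun x => Nat.Coprime x u ∧ x ^ 3 ≡ 1 [MOD u])).card : ℝ) ≤
      C * (u : ℝ) ^ ε) (hgu : g ∣ u) (P : ℕ → Prop) [DecidablePred P] (Y : ℝ) (hY : 0 ≤ Y)
    (hP : ∀ h h' : ℕ, P h → P h' → (h : ℝ) - (h' : ℝ) ≤ Y) :
    (((Finset.Icc 1 N).filter
      (fun h => (Nat.gcd h u = g ∧ (u : ℤ) ∣ κ * (h : ℤ) ^ 3 - τ) ∧ P h)).card : ℝ) ≤
      C * (u : ℝ) ^ ε * (1 + Y * (Int.gcd κ (u : ℤ) : ℝ) * (g : ℝ) ^ 2 / (u : ℝ)) := by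
  classical
  obtain ⟨M, hM1, hMu, hMg, hle, hMd⟩ := H48.exists_M u g κ hu hg hgu
  have hu0 : (0 : ℝ) < u := by exact_mod_cast hu
  have hg0 : (0 : ℝ) < g := by exact_mod_cast hg
  have hM0 : (0 : ℝ) < M := by exact_mod_cast hM1
  set F := (Finset.Icc 1 N).filter
      (fun h => (Nat.gcd h u = g ∧ (u : ℤ) ∣ κ * (h : ℤ) ^ 3 - τ) ∧ P h) with hF
  rcases F.eq_empty_or_nonempty with h0 | hne
  · rw [h0, Finset.card_empty, Nat.cast_zero]
    positivity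
  obtain ⟨h₂, hh₂⟩ : ∃ h₂ : ℕ, h₂ = F.min' hne := ⟨_, rfl⟩
  have hmin : ∀ h ∈ F, h₂ ≤ h := by
    intro h hh
    rw [hh₂]
    exact Finset.min'_le _ _ hh
  replace hh₂ : h₂ ∈ F := by
    rw [hh₂]
    exact Finset.min'_mem _ _
  -- facts on the elements
  have hdiv : ∀ h ∈ F, g ∣ h := by
    intro h hh
    rw [hF, Finset.mem_filter] at hh
    rw [← hh.2.1.1]
    exact Nat.gcd_dvd_left _ _
  have hcop : ∀ h ∈ F, Nat.Coprime (h / g) M := by
    intro h hh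
    obtain ⟨y, hy⟩ := hdiv h hh
    have h1 : h / g = y := by rw [hy]; exact Nat.mul_div_cancel_left _ hg
    rw [h1]
    have h2 : Nat.gcd y M * g ∣ g := by
      have h3 : Nat.gcd y M * g ∣ Nat.gcd h u := by
        refine Nat.dvd_gcd ?_ ?_
        · rw [hy, mul_comm g y]
          exact Nat.mul_dvd_mul_right (Nat.gcd_dvd_left _ _) g
        · exact (Nat.mul_dvd_mul_right (Nat.gcd_dvd_right _ _) g).trans hMg
      rw [hF, Finset.mem_filter] at hh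
      rwa [hh.2.1.1] at h3
    have h4 := Nat.le_of_dvd (by omega) h2
    have h5 : 0 < Nat.gcd y M := Nat.gcd_pos_of_pos_right _ hM1
    have h6 : Nat.gcd y M ≤ 1 := by
      by_contra h7
      push Not at h7
      have : 2 * g ≤ Nat.gcd y M * g := Nat.mul_le_mul_right g h7
      omega
    exact Nat.le_antisymm h6 h5
  have hcube : ∀ h ∈ F, ∀ h' ∈ F, (M : ℤ) ∣ ((h / g : ℕ) : ℤ) ^ 3 - ((h' / g : ℕ) : ℤ) ^ 3 := by
    intro h hh h' hh'
    obtain ⟨y, hy⟩ := hdiv h hh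
    obtain ⟨y', hy'⟩ := hdiv h' hh'
    have h1 : h / g = y := by rw [hy]; exact Nat.mul_div_cancel_left _ hg
    have h1' : h' / g = y' := by rw [hy']; exact Nat.mul_div_cancel_left _ hg
    rw [h1, h1']
    apply hMd
    rw [hF, Finset.mem_filter] at hh hh'
    have h2 := dvd_sub hh.2.1.2 hh'.2.1.2
    have h3 : κ * (h : ℤ) ^ 3 - τ - (κ * (h' : ℤ) ^ 3 - τ) =
        κ * (g : ℤ) ^ 3 * ((y : ℤ) ^ 3 - (y' : ℤ) ^ 3) := by
      rw [hy, hy']
      push_cast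
      ring
    rwa [h3] at h2
  -- the inverse of `y₂`
  obtain ⟨w, hw⟩ : ∃ w : ℕ, (h₂ / g) * w ≡ 1 [MOD M] := by
    have h1 := hcop h₂ hh₂
    rcases Nat.lt_or_ge 1 M with h2 | h2
    · obtain ⟨w, hw⟩ := Nat.exists_mul_mod_eq_one_of_coprime h1 h2
      exact ⟨w, by rw [Nat.ModEq, hw.2, Nat.mod_eq_of_lt h2]⟩
    · have h3 : M = 1 := by omega
      exact ⟨0, by rw [h3]; exact Nat.modEq_one⟩
  have hwcop : Nat.Coprime w M := by
    have h1 : Nat.gcd ((h₂ / g) * w) M = 1 := by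
      rw [Nat.ModEq.gcd_eq hw]
      exact Nat.gcd_one_left M
    exact (Nat.Coprime.coprime_mul_left (show Nat.Coprime ((h₂ / g) * w) M from h1))
  let R := (Finset.range M).filter (fun x => Nat.Coprime x M ∧ x ^ 3 ≡ 1 [MOD M])
  let Q := Finset.range (⌊Y / (g * M)⌋₊ + 1)
  have hcard : F.card ≤ (R ×ˢ Q).card := by
    refine Finset.card_le_card_of_injOn
      (fun h => (((h / g) * w) % M, (h / g - h₂ / g) / M)) ?_ ?_
    · intro h hh
      have hh' : h ∈ F := hh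
      rw [Finset.mem_coe, Finset.mem_product]
      refine ⟨?_, ?_⟩
      · refine Finset.mem_filter.2 ⟨Finset.mem_range.2 (Nat.mod_lt _ hM1), ?_, ?_⟩
        · have h1 : Nat.Coprime ((h / g) * w) M := Nat.Coprime.mul_left (hcop h hh') hwcop
          have h2 : Nat.gcd ((h / g * w) % M) M = Nat.gcd (h / g * w) M :=
            Nat.ModEq.gcd_eq (Nat.mod_modEq _ _)
          exact h2.trans h1
        · have h1 : ((h / g) * w) % M ≡ (h / g) * w [MOD M] := Nat.mod_modEq _ _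
          refine (h1.pow 3).trans ?_
          have h2 : (h / g) ^ 3 ≡ (h₂ / g) ^ 3 [MOD M] := by
            rw [← Int.natCast_modEq_iff, Int.modEq_iff_dvd]
            push_cast
            exact_mod_cast hcube h₂ hh₂ h hh'
          have h3 : ((h / g) * w) ^ 3 ≡ ((h₂ / g) * w) ^ 3 [MOD M] := by
            rw [mul_pow, mul_pow]
            exact Nat.ModEq.mul_right _ h2
          refine h3.trans ?_
          have h4 := hw.pow 3
          rwa [one_pow] at h4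
      · refine Finset.mem_range.2 (Nat.lt_succ_of_le (Nat.le_floor ?_))
        have h1 : (h : ℝ) - (h₂ : ℝ) ≤ Y := by
          rw [hF, Finset.mem_filter] at hh' hh₂
          exact hP h h₂ hh'.2.2 hh₂.2.2
        obtain ⟨y, hy⟩ := hdiv h hh'
        obtain ⟨y', hy'⟩ := hdiv h₂ hh₂
        have h2 : h / g = y := by rw [hy]; exact Nat.mul_div_cancel_left _ hg
        have h2' : h₂ / g = y' := by rw [hy']; exact Nat.mul_div_cancel_left _ hg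
        have h3 : y' ≤ y := by
          have := hmin h hh'
          rw [hy, hy'] at this
          exact Nat.le_of_mul_le_mul_left this hg
        refine Nat.cast_div_le.trans ?_
        rw [h2, h2', Nat.cast_sub h3, ← div_div]
        refine div_le_div_of_nonneg_right ?_ hM0.le
        rw [le_div_iff₀ hg0]
        rw [hy, hy'] at h1
        push_cast at h1
        linarith
    · intro h hh h' hh' heq
      have hh1 : h ∈ F := hh
      have hh2 : h' ∈ F := hh'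
      have e1 : ((h / g) * w) % M = ((h' / g) * w) % M := congrArg Prod.fst heq
      have e2 : (h / g - h₂ / g) / M = (h' / g - h₂ / g) / M := congrArg Prod.snd heq
      have e3 : h / g ≡ h' / g [MOD M] := by
        have : (h / g) * w ≡ (h' / g) * w [MOD M] := e1
        exact Nat.ModEq.cancel_right_of_coprime (by rw [Nat.gcd_comm]; exact hwcop) this
      have f1 : h₂ / g ≤ h / g := Nat.div_le_div_right (hmin h hh1)
      have f2 : h₂ / g ≤ h' / g := Nat.div_le_div_right (hmin h' hh2)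
      have e5 : h / g - h₂ / g ≡ h' / g - h₂ / g [MOD M] := by
        apply Nat.ModEq.add_right_cancel' (h₂ / g)
        rw [Nat.sub_add_cancel f1, Nat.sub_add_cancel f2]
        exact e3
      have e4 : h / g = h' / g := by
        have h1 := Nat.div_add_mod (h / g - h₂ / g) M
        have h2 := Nat.div_add_mod (h' / g - h₂ / g) M
        have h3 : (h / g - h₂ / g) % M = (h' / g - h₂ / g) % M := e5
        rw [e2, h3] at h1
        have h4 := h1.symm.trans h2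
        omega
      obtain ⟨y, hy⟩ := hdiv h hh1
      obtain ⟨y', hy'⟩ := hdiv h' hh2
      have h1 : h / g = y := by rw [hy]; exact Nat.mul_div_cancel_left _ hg
      have h1' : h' / g = y' := by rw [hy']; exact Nat.mul_div_cancel_left _ hg
      rw [h1, h1'] at e4
      rw [hy, hy', e4]
  rw [Finset.card_product] at hcard
  have hR := hroots M hM1
  have hQ : ((Q.card : ℕ) : ℝ) ≤ 1 + Y * (Int.gcd κ (u : ℤ) : ℝ) * (g : ℝ) ^ 2 / (u : ℝ) := by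
    rw [Finset.card_range]
    push_cast
    have h1 : ((⌊Y / (g * M)⌋₊ : ℕ) : ℝ) ≤ Y / (g * M) := Nat.floor_le (by positivity)
    have h2 : Y / (g * M) ≤ Y * (Int.gcd κ (u : ℤ) : ℝ) * (g : ℝ) ^ 2 / (u : ℝ) := by
      rw [div_le_div_iff₀ (by positivity) hu0]
      have h3 : (u : ℝ) ≤ M * ((Int.gcd κ (u : ℤ) : ℝ) * (g : ℝ) ^ 3) := by exact_mod_cast hle
      calc Y * u ≤ Y * (M * ((Int.gcd κ (u : ℤ) : ℝ) * (g : ℝ) ^ 3)) := by gcongr
        _ = _ := by ring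
    linarith
  calc (F.card : ℝ) ≤ ((R.card * Q.card : ℕ) : ℝ) := by exact_mod_cast hcard
    _ = (R.card : ℝ) * (Q.card : ℝ) := by push_cast; ring
    _ ≤ (C * (u : ℝ) ^ ε) *
        (1 + Y * (Int.gcd κ (u : ℤ) : ℝ) * (g : ℝ) ^ 2 / (u : ℝ)) := by
      refine mul_le_mul ?_ hQ (by positivity) (by positivity)
      refine hR.trans ?_
      have h1 : (M : ℝ) ≤ u := by exact_mod_cast Nat.le_of_dvd (by omega) hMu
      gcongr

/-- two numbers with close cubes are close -/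
theorem cubes_close (H : ℕ) (hH : 1 ≤ H) (ρ η x : ℝ) (hρ : ρ ≠ 0) (hη : 0 ≤ η) (h h' : ℕ)
    (h1 : H < 2 * h) (h1' : H < 2 * h') (h2 : |x + ρ * (h : ℝ) ^ 3| ≤ η)
    (h2' : |x + ρ * (h' : ℝ) ^ 3| ≤ η) :
    (h : ℝ) - (h' : ℝ) ≤ 3 * η / (|ρ| * (H : ℝ) ^ 2) := by
  have hH0 : (0 : ℝ) < H := by exact_mod_cast hH
  have hρ0 : 0 < |ρ| := abs_pos.2 hρ
  have e1 : (H : ℝ) < 2 * h := by exact_mod_cast h1
  have e1' : (H : ℝ) < 2 * h' := by exact_mod_cast h1'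
  have e2 : |ρ * ((h : ℝ) ^ 3 - (h' : ℝ) ^ 3)| ≤ 2 * η := by
    have : ρ * ((h : ℝ) ^ 3 - (h' : ℝ) ^ 3) = (x + ρ * (h : ℝ) ^ 3) - (x + ρ * (h' : ℝ) ^ 3) := by
      ring
    rw [this]
    refine (abs_sub _ _).trans ?_
    linarith
  rcases le_total (h : ℝ) (h' : ℝ) with h3 | h3
  · have : 0 ≤ 3 * η / (|ρ| * (H : ℝ) ^ 2) := by positivity
    linarith
  rw [le_div_iff₀ (by positivity)]
  have e3 : (h : ℝ) ^ 3 - (h' : ℝ) ^ 3 =
      ((h : ℝ) - h') * ((h : ℝ) ^ 2 + h * h' + (h' : ℝ) ^ 2) := by ring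
  have e4 : 3 * (H : ℝ) ^ 2 / 4 ≤ (h : ℝ) ^ 2 + h * h' + (h' : ℝ) ^ 2 := by nlinarith
  have e5 : 0 ≤ (h : ℝ) - h' := by linarith
  rw [e3, abs_mul, abs_mul, abs_of_nonneg e5,
    abs_of_nonneg (by positivity : (0 : ℝ) ≤ (h : ℝ) ^ 2 + h * h' + (h' : ℝ) ^ 2)] at e2
  have e6 : |ρ| * (((h : ℝ) - h') * (3 * (H : ℝ) ^ 2 / 4)) ≤
      |ρ| * (((h : ℝ) - h') * ((h : ℝ) ^ 2 + h * h' + (h' : ℝ) ^ 2)) := by gcongr
  nlinarith

theorem cuw (rtu : VM.RtuStmt) : CuwStmt := by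
  intro ε hε
  obtain ⟨C, hC, hroots⟩ := rtu 3 (by norm_num) ε hε
  refine ⟨6 * C, by positivity, ?_⟩
  intro H u g κ c ρ η hH hu hg hc hρ hη
  classical
  obtain ⟨g₁, hg₁⟩ : ∃ g₁ : ℕ, g₁ = Int.gcd κ (u : ℤ) := ⟨_, rfl⟩
  have hg₁0 : 0 < g₁ := by
    rw [hg₁]
    exact Int.gcd_pos_of_ne_zero_right _ (by exact_mod_cast (by omega : u ≠ 0))
  have hg₁R : (1 : ℝ) ≤ g₁ := by exact_mod_cast hg₁0
  have hgR : (1 : ℝ) ≤ g := by exact_mod_cast hg
  have hu0 : (0 : ℝ) < u := by exact_mod_cast hu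
  have hH0 : (1 : ℝ) ≤ H := by exact_mod_cast hH
  have hρ0 : 0 < |ρ| := abs_pos.2 hρ
  rw [← hg₁]
  rw [Nat.subtype_card ((Finset.Icc 1 H).filter (fun h => H < 2 * h ∧ Nat.gcd h u = g ∧
        ∃ σ : ℤ, |(σ : ℝ) / (u : ℝ) + ρ * (h : ℝ) ^ 3| ≤ η ∧
          (u : ℤ) ∣ κ * (h : ℤ) ^ 3 - σ * c)) (by
    intro x
    rw [Finset.mem_filter, Finset.mem_Icc]
    constructor
    · rintro ⟨⟨_, a2⟩, a3, a4, a5⟩
      exact ⟨a3, a2, a4, a5⟩
    · rintro ⟨a3, a2, a4, a5⟩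
      exact ⟨⟨by omega, a2⟩, a3, a4, a5⟩)]
  by_cases hgu : g ∣ u
  swap
  · have h0 : (Finset.Icc 1 H).filter (fun h => H < 2 * h ∧ Nat.gcd h u = g ∧
        ∃ σ : ℤ, |(σ : ℝ) / (u : ℝ) + ρ * (h : ℝ) ^ 3| ≤ η ∧
          (u : ℤ) ∣ κ * (h : ℤ) ^ 3 - σ * c) = ∅ := by
      rw [Finset.filter_eq_empty_iff]
      intro h _ h1
      apply hgu
      rw [← h1.2.1]
      exact Nat.gcd_dvd_right _ _
    rw [h0, Finset.card_empty, Nat.cast_zero]
    positivity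
  -- the values of `σ`
  obtain ⟨s₀, hs₀⟩ : ∃ s₀ : ℝ, s₀ = (u : ℝ) * (|ρ| * (H : ℝ) ^ 3 + η) := ⟨_, rfl⟩
  have hs : 0 ≤ s₀ := by rw [hs₀]; positivity
  rw [← hs₀]
  obtain ⟨L, hL⟩ : ∃ L : ℕ, L = ⌊s₀ / g₁⌋₊ := ⟨_, rfl⟩
  have hLle : (L : ℝ) ≤ s₀ / g₁ := by
    rw [hL]
    exact Nat.floor_le (by positivity)
  let T : Finset ℤ := Finset.Icc (-(L : ℤ)) (L : ℤ)
  have hsub : (Finset.Icc 1 H).filter (fun h => H < 2 * h ∧ Nat.gcd h u = g ∧
        ∃ σ : ℤ, |(σ : ℝ) / (u : ℝ) + ρ * (h : ℝ) ^ 3| ≤ η ∧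
          (u : ℤ) ∣ κ * (h : ℤ) ^ 3 - σ * c) ⊆
      T.biUnion (fun i => (Finset.Icc 1 H).filter
        (fun h => (Nat.gcd h u = g ∧ (u : ℤ) ∣ κ * (h : ℤ) ^ 3 - (i * g₁) * c) ∧
          (H < 2 * h ∧ |((i * g₁ : ℤ) : ℝ) / (u : ℝ) + ρ * (h : ℝ) ^ 3| ≤ η))) := by
    intro h hh
    rw [Finset.mem_filter] at hh
    obtain ⟨h1, hH2, h2, σ, h3, h4⟩ := hh
    have hhH : (h : ℝ) ≤ H := by exact_mod_cast (Finset.mem_Icc.1 h1).2
    have h5 : (g₁ : ℤ) ∣ σ := by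
      have h6 : (g₁ : ℤ) ∣ (u : ℤ) := by rw [hg₁]; exact Int.gcd_dvd_right _ _
      have h7 : (g₁ : ℤ) ∣ κ := by rw [hg₁]; exact Int.gcd_dvd_left _ _
      have h8 : (g₁ : ℤ) ∣ σ * c := by
        have h9 := h6.trans h4
        have h10 : (g₁ : ℤ) ∣ κ * (h : ℤ) ^ 3 := h7.mul_right _
        have h11 := dvd_sub h10 h9
        have h12 : κ * (h : ℤ) ^ 3 - (κ * (h : ℤ) ^ 3 - σ * c) = σ * c := by ring
        rwa [h12] at h11
      have h9 : IsCoprime (g₁ : ℤ) c := by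
        have h10 : IsCoprime (u : ℤ) c := by
          rw [Int.isCoprime_iff_gcd_eq_one, Int.gcd_comm]
          exact hc
        exact h10.of_isCoprime_of_dvd_left h6
      exact h9.dvd_of_dvd_mul_right h8
    obtain ⟨i, hi⟩ := h5
    have hσi : σ = i * g₁ := by rw [hi, mul_comm]
    have h3' : |(σ : ℝ)| ≤ s₀ := by
      have e1 : (σ : ℝ) = u * (((σ : ℝ) / (u : ℝ) + ρ * (h : ℝ) ^ 3) - ρ * (h : ℝ) ^ 3) := by
        field_simp
        ring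
      rw [e1, abs_mul, abs_of_pos hu0, hs₀]
      refine mul_le_mul_of_nonneg_left ?_ hu0.le
      refine (abs_sub _ _).trans ?_
      have e2 : |ρ * (h : ℝ) ^ 3| ≤ |ρ| * (H : ℝ) ^ 3 := by
        rw [abs_mul, abs_of_nonneg (by positivity : (0 : ℝ) ≤ (h : ℝ) ^ 3)]
        gcongr
      linarith
    rw [Finset.mem_biUnion]
    refine ⟨i, ?_, ?_⟩
    · rw [Finset.mem_Icc, ← abs_le]
      have h6 : |(i : ℝ)| ≤ s₀ / g₁ := by
        rw [le_div_iff₀ (by linarith)]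
        have h7 : |(σ : ℝ)| = |(i : ℝ)| * g₁ := by
          rw [hi]
          push_cast
          rw [abs_mul, abs_of_nonneg (by linarith : (0 : ℝ) ≤ g₁), mul_comm]
        rw [← h7]
        exact h3'
      have h7 : ((i.natAbs : ℕ) : ℝ) ≤ s₀ / g₁ := by
        rw [Nat.cast_natAbs, Int.cast_abs]
        exact h6
      have h8 : i.natAbs ≤ L := by
        rw [hL]
        exact Nat.le_floor h7
      rw [Int.abs_eq_natAbs]
      exact_mod_cast h8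
    · rw [Finset.mem_filter]
      rw [hσi] at h4 h3
      exact ⟨h1, ⟨h2, h4⟩, hH2, h3⟩
  have hfib : ∀ i : ℤ, (((Finset.Icc 1 H).filter
        (fun h => (Nat.gcd h u = g ∧ (u : ℤ) ∣ κ * (h : ℤ) ^ 3 - (i * g₁) * c) ∧
          (H < 2 * h ∧ |((i * g₁ : ℤ) : ℝ) / (u : ℝ) + ρ * (h : ℝ) ^ 3| ≤ η))).card : ℝ) ≤
      C * (u : ℝ) ^ ε * (1 + 3 * η / (|ρ| * (H : ℝ) ^ 2) * (g₁ : ℝ) * (g : ℝ) ^ 2 / (u : ℝ)) := by
    intro i
    have h2 := fibY H u g κ (i * g₁ * c) hu hg C ε hC hε hroots hgu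
      (fun h => H < 2 * h ∧ |((i * g₁ : ℤ) : ℝ) / (u : ℝ) + ρ * (h : ℝ) ^ 3| ≤ η)
      (3 * η / (|ρ| * (H : ℝ) ^ 2)) (by positivity)
      (fun h h' a a' => cubes_close H hH ρ η _ hρ hη h h' a.1 a'.1 a.2 a'.2)
    rw [← hg₁] at h2
    exact h2
  have hcard := (Finset.card_le_card hsub).trans Finset.card_biUnion_le
  have hT : (T.card : ℝ) = 2 * (L : ℝ) + 1 := by
    have h3 : T.card = 2 * L + 1 := by
      rw [Int.card_Icc]
      omega
    rw [h3]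
    push_cast
    ring
  have hY : 3 * η / (|ρ| * (H : ℝ) ^ 2) * (g₁ : ℝ) * (g : ℝ) ^ 2 / (u : ℝ) =
      3 * ((g₁ : ℝ) * (g : ℝ) ^ 2 * η / ((u : ℝ) * |ρ| * (H : ℝ) ^ 2)) := by
    field_simp
  obtain ⟨B, hB⟩ : ∃ B : ℝ, B = (g₁ : ℝ) * (g : ℝ) ^ 2 * η / ((u : ℝ) * |ρ| * (H : ℝ) ^ 2) :=
    ⟨_, rfl⟩
  have hB0 : 0 ≤ B := by rw [hB]; positivity
  obtain ⟨A, hA⟩ : ∃ A : ℝ, A = s₀ / g₁ := ⟨_, rfl⟩
  have hA0 : 0 ≤ A := by rw [hA]; positivity
  rw [hY, ← hB] at hfib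
  rw [← hA] at hLle
  rw [← hB, ← hA]
  calc _ ≤ ((∑ i ∈ T, ((Finset.Icc 1 H).filter
        (fun h => (Nat.gcd h u = g ∧ (u : ℤ) ∣ κ * (h : ℤ) ^ 3 - (i * g₁) * c) ∧
          (H < 2 * h ∧ |((i * g₁ : ℤ) : ℝ) / (u : ℝ) + ρ * (h : ℝ) ^ 3| ≤ η))).card : ℕ) : ℝ) := by
        exact_mod_cast hcard
    _ = ∑ i ∈ T, (((Finset.Icc 1 H).filter
        (fun h => (Nat.gcd h u = g ∧ (u : ℤ) ∣ κ * (h : ℤ) ^ 3 - (i * g₁) * c) ∧
          (H < 2 * h ∧ |((i * g₁ : ℤ) : ℝ) / (u : ℝ) + ρ * (h : ℝ) ^ 3| ≤ η))).card : ℝ) := by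
        push_cast; rfl
    _ ≤ ∑ _i ∈ T, (C * (u : ℝ) ^ ε * (1 + 3 * B)) := Finset.sum_le_sum fun i _ => hfib i
    _ = (2 * (L : ℝ) + 1) * (C * (u : ℝ) ^ ε * (1 + 3 * B)) := by
        rw [Finset.sum_const, nsmul_eq_mul, hT]
    _ ≤ (2 * (1 + A)) * (C * (u : ℝ) ^ ε * (3 * (1 + B))) := by
        have h0 : 0 ≤ C * (u : ℝ) ^ ε := by positivity
        refine mul_le_mul (by linarith) ?_ (by positivity) (by positivity)
        refine mul_le_mul_of_nonneg_left (by linarith) h0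
    _ = 6 * C * (u : ℝ) ^ ε * (1 + A) * (1 + B) := by ring

end Pool.Agent.VM5.H39
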