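import Mathlib
import Pool.Agent.VM5.StmtsB
import Pool.Agent.Helper54_VM5.Hcn

/-!
# HTw (squad VMG): the number of `(h, d, d')` in the case `c₁ W < K ^ 3`, `u < |t - b / u| u N ^ 5`
-/

set_option autoImplicit false

namespace Pool.Agent.VM5.H39

theorem pow10_lo (D d e : ℝ) (hD : 0 < D) (hd : D ≤ d) (he : D ≤ e) :
    10 * D ^ 9 * |e - d| ≤ |e ^ 10 - d ^ 10| := by
  have e1 : e ^ 10 - d ^ 10 = (e - d) * (e ^ 9 + e ^ 8 * d + e ^ 7 * d ^ 2 + e ^ 6 * d ^ 3 +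
      e ^ 5 * d ^ 4 + e ^ 4 * d ^ 5 + e ^ 3 * d ^ 6 + e ^ 2 * d ^ 7 + e * d ^ 8 + d ^ 9) := by ring
  have hd0 : 0 < d := by linarith
  have he0 : 0 < e := by linarith
  rw [e1, abs_mul, mul_comm]
  refine mul_le_mul_of_nonneg_left ?_ (abs_nonneg _)
  rw [abs_of_pos (by positivity)]
  have f : ∀ i j : ℕ, i + j = 9 → D ^ 9 ≤ e ^ i * d ^ j := by
    intro i j hij
    calc D ^ 9 = D ^ i * D ^ j := by rw [← pow_add, hij]
      _ ≤ e ^ i * d ^ j := by gcongr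
  have h0 := f 9 0 rfl
  have h1 := f 8 1 rfl
  have h2 := f 7 2 rfl
  have h3 := f 6 3 rfl
  have h4 := f 5 4 rfl
  have h5 := f 4 5 rfl
  have h6 := f 3 6 rfl
  have h7 := f 2 7 rfl
  have h8 := f 1 8 rfl
  have h9 := f 0 9 rfl
  simp only [pow_zero, mul_one, one_mul, pow_one] at h0 h1 h8 h9
  linarith

theorem pow10_hi (D d e : ℝ) (hd : 0 < d) (he : 0 < e) (hdD : d ≤ D) (heD : e ≤ D) :
    |e ^ 10 - d ^ 10| ≤ 10 * D ^ 9 * |e - d| := by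
  have e1 : e ^ 10 - d ^ 10 = (e - d) * (e ^ 9 + e ^ 8 * d + e ^ 7 * d ^ 2 + e ^ 6 * d ^ 3 +
      e ^ 5 * d ^ 4 + e ^ 4 * d ^ 5 + e ^ 3 * d ^ 6 + e ^ 2 * d ^ 7 + e * d ^ 8 + d ^ 9) := by ring
  rw [e1, abs_mul, mul_comm (10 * D ^ 9)]
  refine mul_le_mul_of_nonneg_left ?_ (abs_nonneg _)
  rw [abs_of_pos (by positivity)]
  have hD0 : 0 < D := by linarith
  have f : ∀ i j : ℕ, i + j = 9 → e ^ i * d ^ j ≤ D ^ 9 := by
    intro i j hij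
    calc e ^ i * d ^ j ≤ D ^ i * D ^ j := by gcongr
      _ = D ^ 9 := by rw [← pow_add, hij]
  have h0 := f 9 0 rfl
  have h1 := f 8 1 rfl
  have h2 := f 7 2 rfl
  have h3 := f 6 3 rfl
  have h4 := f 5 4 rfl
  have h5 := f 4 5 rfl
  have h6 := f 3 6 rfl
  have h7 := f 2 7 rfl
  have h8 := f 1 8 rfl
  have h9 := f 0 9 rfl
  simp only [pow_zero, mul_one, one_mul, pow_one] at h0 h1 h8 h9
  linarith

/-- the slope -/
theorem rho_bd (D d e β : ℝ) (hD : 0 < D) (hd : D ≤ d) (he : D ≤ e) (hd2 : d ≤ 2 * D)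
    (he2 : e ≤ 2 * D) :
    |β| * D * |e - d| / 11 ≤ |β * (10 * d ^ 2 * (e ^ 10 - d ^ 10) / e ^ 10)| ∧
    |β * (10 * d ^ 2 * (e ^ 10 - d ^ 10) / e ^ 10)| ≤ 204800 * |β| * D * |e - d| := by
  have hd0 : 0 < d := by linarith
  have he0 : 0 < e := by linarith
  have h1 := pow10_lo D d e hD hd he
  have h2 := pow10_hi (2 * D) d e hd0 he0 hd2 he2
  have hβ := abs_nonneg β
  have hΔ := abs_nonneg (e - d)
  rw [abs_mul, abs_div, abs_mul, abs_of_pos (by positivity : (0 : ℝ) < e ^ 10),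
    abs_of_pos (by positivity : (0 : ℝ) < 10 * d ^ 2)]
  constructor
  · have h3 : D * |e - d| / 11 ≤ 10 * d ^ 2 * |e ^ 10 - d ^ 10| / e ^ 10 := by
      rw [div_le_div_iff₀ (by norm_num) (by positivity)]
      have h4 : e ^ 10 ≤ (2 * D) ^ 10 := by gcongr
      calc D * |e - d| * e ^ 10 ≤ D * |e - d| * (2 * D) ^ 10 := by gcongr
        _ = 1024 * (D ^ 11 * |e - d|) := by ring
        _ ≤ 1100 * (D ^ 11 * |e - d|) := by
            have : 0 ≤ D ^ 11 * |e - d| := by positivity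
            linarith
        _ = 10 * D ^ 2 * (10 * D ^ 9 * |e - d|) * 11 := by ring
        _ ≤ 10 * d ^ 2 * |e ^ 10 - d ^ 10| * 11 := by gcongr
    calc |β| * D * |e - d| / 11 = |β| * (D * |e - d| / 11) := by ring
      _ ≤ _ := mul_le_mul_of_nonneg_left h3 hβ
  · have h3 : 10 * d ^ 2 * |e ^ 10 - d ^ 10| / e ^ 10 ≤ 204800 * (D * |e - d|) := by
      rw [div_le_iff₀ (by positivity)]
      have h4 : D ^ 10 ≤ e ^ 10 := by gcongr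
      calc 10 * d ^ 2 * |e ^ 10 - d ^ 10| ≤ 10 * (2 * D) ^ 2 * (10 * (2 * D) ^ 9 * |e - d|) := by
            gcongr
        _ = 204800 * (D * |e - d|) * D ^ 10 := by ring
        _ ≤ 204800 * (D * |e - d|) * e ^ 10 := by gcongr
    calc |β| * (10 * d ^ 2 * |e ^ 10 - d ^ 10| / e ^ 10) ≤ |β| * (204800 * (D * |e - d|)) :=
          mul_le_mul_of_nonneg_left h3 hβ
      _ = _ := by ring

/-- one pair: the product of the two brackets -/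
theorem one_pair (C₀ N D K u H g g₁ Δ β W R : ℝ) (hC₀ : 0 < C₀) (hN : 1 ≤ N) (hD : 1 ≤ D)
    (hK : 1 ≤ K) (hu : 1 ≤ u) (hH : 1 ≤ H) (hg : 1 ≤ g) (hg₁ : 1 ≤ g₁) (hΔ : 1 ≤ Δ) (hΔD : Δ ≤ D)
    (hHN : H ≤ N) (hβ : 0 < β) (hW : W = β * u * N ^ 5) (huW : u ≤ W) (hNDK : N ≤ 5 * D * K)
    (hR1 : β * D * Δ / 11 ≤ R) (hR2 : R ≤ 204800 * β * D * Δ) :
    (1 + u * (R * H ^ 3 + C₀ / K ^ 2) / g₁) * (1 + g₁ * g ^ 2 * (C₀ / K ^ 2) / (u * R * H ^ 2)) ≤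
      1 + 204800 * W * D ^ 2 / N ^ 2 + C₀ * W / K ^ 2 +
        275 * C₀ * (g * N / H) ^ 2 * (N * D / W) * (g₁ / Δ) + C₀ * (g * N / H) ^ 2 * (N / K ^ 2) +
        275 * C₀ ^ 2 * (g * N / H) ^ 2 * (N * D / K ^ 2) * (1 / Δ) := by
  have hR0 : 0 < R := lt_of_lt_of_le (by positivity) hR1
  have hW0 : 0 < W := by rw [hW]; positivity
  have hN2 : N ^ 2 ≤ 25 * D ^ 2 * K ^ 2 := by
    calc N ^ 2 ≤ (5 * D * K) ^ 2 := by gcongr
      _ = _ := by ring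
  have hexp : (1 + u * (R * H ^ 3 + C₀ / K ^ 2) / g₁) *
      (1 + g₁ * g ^ 2 * (C₀ / K ^ 2) / (u * R * H ^ 2)) =
      1 + u * R * H ^ 3 / g₁ + u * (C₀ / K ^ 2) / g₁ + g₁ * g ^ 2 * (C₀ / K ^ 2) / (u * R * H ^ 2) +
        g ^ 2 * (C₀ / K ^ 2) * H + g ^ 2 * (C₀ / K ^ 2) ^ 2 / (R * H ^ 2) := by
    field_simp
    ring
  have t2 : u * R * H ^ 3 / g₁ ≤ 204800 * W * D ^ 2 / N ^ 2 := by
    calc u * R * H ^ 3 / g₁ ≤ u * R * H ^ 3 / 1 := by gcongr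
      _ = u * R * H ^ 3 := by rw [div_one]
      _ ≤ u * (204800 * β * D * D) * N ^ 3 := by
          have : R ≤ 204800 * β * D * D := hR2.trans (by gcongr)
          gcongr
      _ = 204800 * W * D ^ 2 / N ^ 2 := by
          rw [hW]
          field_simp
  have t3 : u * (C₀ / K ^ 2) / g₁ ≤ C₀ * W / K ^ 2 := by
    calc u * (C₀ / K ^ 2) / g₁ ≤ W * (C₀ / K ^ 2) / 1 := by gcongr
      _ = _ := by ring
  have t4 : g₁ * g ^ 2 * (C₀ / K ^ 2) / (u * R * H ^ 2) ≤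
      275 * C₀ * (g * N / H) ^ 2 * (N * D / W) * (g₁ / Δ) := by
    calc g₁ * g ^ 2 * (C₀ / K ^ 2) / (u * R * H ^ 2) ≤
        g₁ * g ^ 2 * (C₀ / K ^ 2) / (u * (β * D * Δ / 11) * H ^ 2) := by gcongr
      _ = 11 * C₀ * (g / H) ^ 2 * (N ^ 3 / (W * D)) * (g₁ / Δ) * (N ^ 2 / K ^ 2) := by
          rw [hW]
          field_simp
      _ ≤ 11 * C₀ * (g / H) ^ 2 * (N ^ 3 / (W * D)) * (g₁ / Δ) * (25 * D ^ 2) := by
          gcongr
          rw [div_le_iff₀ (by positivity)]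
          exact hN2
      _ = _ := by
          field_simp
          ring
  have t5 : g ^ 2 * (C₀ / K ^ 2) * H ≤ C₀ * (g * N / H) ^ 2 * (N / K ^ 2) := by
    have h1 : g ^ 2 * (C₀ / K ^ 2) * H = C₀ * (g * N / H) ^ 2 * (H ^ 3 / (N ^ 2 * K ^ 2)) := by
      field_simp
    rw [h1]
    refine mul_le_mul_of_nonneg_left ?_ (by positivity)
    rw [div_le_div_iff₀ (by positivity) (by positivity)]
    calc H ^ 3 * K ^ 2 ≤ N ^ 3 * K ^ 2 := by gcongr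
      _ = _ := by ring
  have t6 : g ^ 2 * (C₀ / K ^ 2) ^ 2 / (R * H ^ 2) ≤
      275 * C₀ ^ 2 * (g * N / H) ^ 2 * (N * D / K ^ 2) * (1 / Δ) := by
    calc g ^ 2 * (C₀ / K ^ 2) ^ 2 / (R * H ^ 2) ≤
        g ^ 2 * (C₀ / K ^ 2) ^ 2 / ((β * D * Δ / 11) * H ^ 2) := by gcongr
      _ = 11 * C₀ ^ 2 * (g / H) ^ 2 * (1 / Δ) * (N ^ 3 / (K ^ 2 * D)) * (u / W) *
          (N ^ 2 / K ^ 2) := by
          rw [hW]
          field_simp
      _ ≤ 11 * C₀ ^ 2 * (g / H) ^ 2 * (1 / Δ) * (N ^ 3 / (K ^ 2 * D)) * 1 * (25 * D ^ 2) := by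
          gcongr
          · rw [div_le_one hW0]
            exact huW
          · rw [div_le_iff₀ (by positivity)]
            exact hN2
      _ = _ := by
          field_simp
          ring
  rw [hexp]
  linarith

/-- HTw -/
theorem htw (cuw : CuwStmt) (gs2 : Gs2Stmt) : HtwStmt := by
  classical
  intro C₀ hC₀ ε hε
  obtain ⟨C₂, hC₂, hcuw⟩ := cuw (ε / 8) (by linarith)
  obtain ⟨C₃, hC₃, hgs2⟩ := gs2 (ε / 10) (by linarith)
  refine ⟨C₂ * (204801 + 5 * C₀ + 2200 * C₀ * C₃ + 2200 * C₀ ^ 2 * C₃), by positivity, ?_⟩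
  intro N D K u H g t b S hpar hBu hg hgH hHN
  obtain ⟨p1, p2, p3, p4, p5, p6, p7, p8, p9, p10, p11, p12, p13⟩ := hpar
  have hN1 : 1 ≤ N := by omega
  have hH1 : 1 ≤ H := by omega
  have hu0 : (1 : ℝ) ≤ u := by exact_mod_cast p8
  have hN0 : (1 : ℝ) ≤ N := by exact_mod_cast hN1
  have hH0 : (1 : ℝ) ≤ H := by exact_mod_cast hH1
  have hg0 : (1 : ℝ) ≤ g := by exact_mod_cast hg
  have hHN' : (H : ℝ) ≤ N := by exact_mod_cast hHN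
  have hD0 : (1 : ℝ) ≤ D := by
    have : 1 ≤ D := by omega
    exact_mod_cast this
  have hK1 : 1 ≤ K := by
    rcases Nat.eq_zero_or_pos K with h | h
    · rw [h] at p2; omega
    · exact h
  have hK0 : (1 : ℝ) ≤ K := by exact_mod_cast hK1
  have hKN : K ≤ N := by
    have : K ≤ 4 * D * K := Nat.le_mul_of_pos_left K (by omega)
    omega
  have hWeq : WW N u t b = |t - (b : ℝ) / (u : ℝ)| * (u : ℝ) * (N : ℝ) ^ 5 := by
    rw [WW]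
    exact max_eq_right hBu.le
  have hWu : (u : ℝ) ≤ WW N u t b := le_max_left _ _
  obtain ⟨W, hWdef⟩ : ∃ W : ℝ, W = WW N u t b := ⟨_, rfl⟩
  rw [← hWdef] at p10 p11 p12 hWeq hWu ⊢
  have hW0 : 0 < W := by linarith
  have huN : (u : ℝ) ≤ (N : ℝ) ^ 4 := by
    have h1 : (K : ℝ) ≤ N := by exact_mod_cast hKN
    have h2 : (K : ℝ) ^ 4 ≤ (N : ℝ) ^ 4 := by gcongr
    nlinarith
  obtain ⟨β, hβ⟩ : ∃ β : ℝ, β = t - (b : ℝ) / (u : ℝ) := ⟨_, rfl⟩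
  rw [← hβ] at hWeq hBu
  have hβ0 : 0 < |β| := by
    rcases (abs_nonneg β).eq_or_lt with h | h
    · rw [← h] at hBu
      simp only [zero_mul] at hBu
      linarith
    · exact h
  have hβ1 : β ≠ 0 := abs_pos.1 hβ0
  have hDN : (D : ℝ) ≤ N / 4 := by
    have h1 : 4 * D ≤ N := by
      have : 4 * D * 1 ≤ 4 * D * K := Nat.mul_le_mul_left _ hK1
      omega
    have h2 : (4 : ℝ) * D ≤ N := by exact_mod_cast h1
    linarith
  have hDW : (D : ℝ) ≤ W := by linarith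
  have hNDK : (N : ℝ) ≤ 5 * D * K := by exact_mod_cast p2
  have hDK : (D : ℝ) ≤ (K : ℝ) ^ 2 := by exact_mod_cast p7
  have hD3 : (D : ℝ) ^ 3 ≤ (N : ℝ) ^ 2 := by
    have h1 : (4 : ℝ) * D * K ≤ N := by exact_mod_cast p1
    calc (D : ℝ) ^ 3 = (D : ℝ) ^ 2 * D := by ring
      _ ≤ (D : ℝ) ^ 2 * (K : ℝ) ^ 2 := by gcongr
      _ ≤ 16 * ((D : ℝ) ^ 2 * (K : ℝ) ^ 2) := by
          have : 0 ≤ (D : ℝ) ^ 2 * (K : ℝ) ^ 2 := by positivity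
          linarith
      _ = (4 * D * K) ^ 2 := by ring
      _ ≤ (N : ℝ) ^ 2 := by gcongr
  -- the finite set
  let κ : ℕ × ℕ → ℤ := fun y => 10 * b * (y.1 : ℤ) ^ 2 * ((y.2 : ℤ) ^ 10 - (y.1 : ℤ) ^ 10)
  let ρ : ℕ × ℕ → ℝ := fun y => β * (10 * (y.1 : ℝ) ^ 2 * ((y.2 : ℝ) ^ 10 - (y.1 : ℝ) ^ 10) /
              (y.2 : ℝ) ^ 10)
  let Q : ℕ × (ℕ × ℕ) → Prop := fun x =>
    H < 2 * x.1 ∧ x.1 ≤ H ∧ Nat.gcd x.1 u = g ∧
        x.2.1 ∈ S ∧ x.2.2 ∈ S ∧ x.2.1 ≠ x.2.2 ∧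
        ∃ σ : ℤ, |(σ : ℝ) / (u : ℝ) + ρ x.2 * (x.1 : ℝ) ^ 3| ≤ C₀ / (K : ℝ) ^ 2 ∧
          (u : ℤ) ∣ κ x.2 * (x.1 : ℤ) ^ 3 - σ * (x.2.2 : ℤ) ^ 10
  let F : Finset (ℕ × (ℕ × ℕ)) := (Finset.Icc 1 N ×ˢ (S ×ˢ S)).filter Q
  have hcardF : Nat.card {x : ℕ × (ℕ × ℕ) // Q x} = F.card := by
    apply Nat.subtype_card
    intro x
    simp only [F, Finset.mem_filter, Finset.mem_product, Finset.mem_Icc]
    constructor
    · exact fun h => h.2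
    · intro h
      refine ⟨?_, h⟩
      obtain ⟨h1, h2, h3, h4, h5, h6⟩ := h
      exact ⟨⟨by omega, by omega⟩, h4, h5⟩
  have hgoal : Nat.card {x : ℕ × (ℕ × ℕ) // H < 2 * x.1 ∧ x.1 ≤ H ∧ Nat.gcd x.1 u = g ∧
        x.2.1 ∈ S ∧ x.2.2 ∈ S ∧ x.2.1 ≠ x.2.2 ∧
        ∃ σ : ℤ, |(σ : ℝ) / (u : ℝ) + (t - (b : ℝ) / (u : ℝ)) *
            (10 * (x.2.1 : ℝ) ^ 2 * ((x.2.2 : ℝ) ^ 10 - (x.2.1 : ℝ) ^ 10) /
              (x.2.2 : ℝ) ^ 10) * (x.1 : ℝ) ^ 3| ≤ C₀ / (K : ℝ) ^ 2 ∧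
          (u : ℤ) ∣ (10 * b * (x.2.1 : ℤ) ^ 2 * ((x.2.2 : ℤ) ^ 10 - (x.2.1 : ℤ) ^ 10)) *
            (x.1 : ℤ) ^ 3 - σ * (x.2.2 : ℤ) ^ 10} = F.card := by
    rw [← hβ]
    exact hcardF
  rw [hgoal]
  let T : Finset (ℕ × ℕ) := (S ×ˢ S).filter (fun x => x.1 ≠ x.2)
  have hmemF : ∀ x ∈ F, Q x := fun x hx => (Finset.mem_filter.1 hx).2
  have hmaps : ∀ x ∈ F, x.2 ∈ T := by
    intro x hx
    obtain ⟨h1, h2, h3, h4, h5, h6, h7⟩ := hmemF x hx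
    exact Finset.mem_filter.2 ⟨Finset.mem_product.2 ⟨h4, h5⟩, h6⟩
  have hTS : ∀ y ∈ T, y.1 ∈ S ∧ y.2 ∈ S ∧ y.1 ≠ y.2 := by
    intro y hy
    obtain ⟨a1, a2⟩ := Finset.mem_filter.1 hy
    exact ⟨(Finset.mem_product.1 a1).1, (Finset.mem_product.1 a1).2, a2⟩
  have hcop : ∀ d ∈ S, Nat.Coprime d u := fun d hd =>
    ((p13 d hd).2.2.1.coprime_iff_not_dvd).2 (p13 d hd).2.2.2
  let G : ℕ × ℕ → ℝ := fun y =>
    ((Int.gcd (10 * ((y.2 : ℤ) ^ 10 - (y.1 : ℤ) ^ 10)) (u : ℤ) : ℕ) : ℝ)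
  -- one pair
  have hone : ∀ y ∈ T, ((F.filter (fun x => x.2 = y)).card : ℝ) ≤
      C₂ * (u : ℝ) ^ (ε / 8) * (1 + 204800 * W * (D : ℝ) ^ 2 / (N : ℝ) ^ 2 +
        C₀ * W / (K : ℝ) ^ 2 +
        275 * C₀ * ((g : ℝ) * N / H) ^ 2 * (N * D / W) * (G y / |(y.2 : ℝ) - (y.1 : ℝ)|) +
        C₀ * ((g : ℝ) * N / H) ^ 2 * (N / (K : ℝ) ^ 2) +
        275 * C₀ ^ 2 * ((g : ℝ) * N / H) ^ 2 * (N * D / (K : ℝ) ^ 2) *
          (1 / |(y.2 : ℝ) - (y.1 : ℝ)|)) := by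
    intro y hy
    obtain ⟨hy1, hy2, hy3⟩ := hTS y hy
    obtain ⟨a1, a2, a3, a4⟩ := p13 y.1 hy1
    obtain ⟨b1, b2, b3, b4⟩ := p13 y.2 hy2
    have a1' : (D : ℝ) ≤ y.1 := by exact_mod_cast a1.le
    have a2' : (y.1 : ℝ) ≤ 2 * D := by exact_mod_cast a2
    have b1' : (D : ℝ) ≤ y.2 := by exact_mod_cast b1.le
    have b2' : (y.2 : ℝ) ≤ 2 * D := by exact_mod_cast b2
    have hΔ1 : 1 ≤ |(y.2 : ℝ) - (y.1 : ℝ)| := by
      have h1 : (1 : ℤ) ≤ |(y.2 : ℤ) - (y.1 : ℤ)| := by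
        have : (y.2 : ℤ) - (y.1 : ℤ) ≠ 0 := by
          intro h0
          apply hy3
          omega
        exact Int.one_le_abs this
      exact_mod_cast h1
    have hΔD : |(y.2 : ℝ) - (y.1 : ℝ)| ≤ D := by
      rw [abs_le]
      constructor <;> linarith
    obtain ⟨r1, r2⟩ := rho_bd (D : ℝ) (y.1 : ℝ) (y.2 : ℝ) β (by linarith) a1' b1' a2' b2'
    have hρ0 : 0 < |ρ y| := by
      refine lt_of_lt_of_le ?_ r1
      positivity
    have hκ : Int.gcd (κ y) (u : ℤ) =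
        Int.gcd (10 * ((y.2 : ℤ) ^ 10 - (y.1 : ℤ) ^ 10)) (u : ℤ) :=
      H54.gcd_kappa u b y.1 y.2 p9 (hcop _ hy1)
    have hG1 : 1 ≤ G y := by
      have h1 : 0 < Int.gcd (10 * ((y.2 : ℤ) ^ 10 - (y.1 : ℤ) ^ 10)) (u : ℤ) :=
        Int.gcd_pos_of_ne_zero_right _ (by exact_mod_cast (by omega : u ≠ 0))
      have h2 : 1 ≤ Int.gcd (10 * ((y.2 : ℤ) ^ 10 - (y.1 : ℤ) ^ 10)) (u : ℤ) := h1
      exact Nat.one_le_cast.2 h2
    have h1 := hcuw H u g (κ y) ((y.2 : ℤ) ^ 10) (ρ y) (C₀ / (K : ℝ) ^ 2) hH1 p8 hg ?_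
      (abs_pos.1 hρ0) (by positivity)
    swap
    · rw [Int.gcd, Int.natAbs_pow, Int.natAbs_natCast, Int.natAbs_natCast]
      exact Nat.Coprime.pow_left 10 (hcop _ hy2)
    rw [hκ] at h1
    have h2 := one_pair C₀ N D K u H g (G y) |(y.2 : ℝ) - (y.1 : ℝ)| |β| W |ρ y| hC₀ hN0 hD0 hK0
      hu0 hH0 hg0 hG1 hΔ1 hΔD hHN' hβ0 hWeq hWu hNDK r1 r2
    have hfin : ((F.filter (fun x => x.2 = y)).card : ℝ) ≤
        (Nat.card {h : ℕ // H < 2 * h ∧ h ≤ H ∧ Nat.gcd h u = g ∧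
        ∃ σ : ℤ, |(σ : ℝ) / (u : ℝ) + ρ y * (h : ℝ) ^ 3| ≤ C₀ / (K : ℝ) ^ 2 ∧
          (u : ℤ) ∣ κ y * (h : ℤ) ^ 3 - σ * (y.2 : ℤ) ^ 10} : ℝ) := by
      have hc : Nat.card {h : ℕ // H < 2 * h ∧ h ≤ H ∧ Nat.gcd h u = g ∧
        ∃ σ : ℤ, |(σ : ℝ) / (u : ℝ) + ρ y * (h : ℝ) ^ 3| ≤ C₀ / (K : ℝ) ^ 2 ∧
          (u : ℤ) ∣ κ y * (h : ℤ) ^ 3 - σ * (y.2 : ℤ) ^ 10} =
          ((Finset.Icc 1 H).filter (fun h => H < 2 * h ∧ h ≤ H ∧ Nat.gcd h u = g ∧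
        ∃ σ : ℤ, |(σ : ℝ) / (u : ℝ) + ρ y * (h : ℝ) ^ 3| ≤ C₀ / (K : ℝ) ^ 2 ∧
          (u : ℤ) ∣ κ y * (h : ℤ) ^ 3 - σ * (y.2 : ℤ) ^ 10)).card := by
        apply Nat.subtype_card
        intro h
        rw [Finset.mem_filter, Finset.mem_Icc]
        constructor
        · exact fun a => a.2
        · exact fun a => ⟨⟨by omega, a.2.1⟩, a⟩
      rw [hc]
      have : (F.filter (fun x => x.2 = y)).card ≤
          ((Finset.Icc 1 H).filter (fun h => H < 2 * h ∧ h ≤ H ∧ Nat.gcd h u = g ∧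
        ∃ σ : ℤ, |(σ : ℝ) / (u : ℝ) + ρ y * (h : ℝ) ^ 3| ≤ C₀ / (K : ℝ) ^ 2 ∧
          (u : ℤ) ∣ κ y * (h : ℤ) ^ 3 - σ * (y.2 : ℤ) ^ 10)).card := by
        refine Finset.card_le_card_of_injOn (fun x => x.1) ?_ ?_
        · intro x hx
          obtain ⟨hx1, hx2⟩ := Finset.mem_filter.1 (Finset.mem_coe.1 hx)
          obtain ⟨h1, h2, h3, h4, h5, h6, h7⟩ := hmemF x hx1
          rw [hx2] at h7
          have h8 : 1 ≤ x.1 := by
            clear hx h7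
            omega
          exact Finset.mem_coe.2 (Finset.mem_filter.2
            ⟨Finset.mem_Icc.2 ⟨h8, h2⟩, h1, h2, h3, h7⟩)
        · intro x hx x' hx' hxx
          have hx2 := (Finset.mem_filter.1 (Finset.mem_coe.1 hx)).2
          have hx2' := (Finset.mem_filter.1 (Finset.mem_coe.1 hx')).2
          exact Prod.ext hxx (hx2.trans hx2'.symm)
      exact_mod_cast this
    refine hfin.trans (h1.trans ?_)
    rw [mul_assoc (C₂ * (u : ℝ) ^ (ε / 8))]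
    exact mul_le_mul_of_nonneg_left h2 (by positivity)
  -- the sums
  have hTcard : (T.card : ℝ) ≤ (D : ℝ) ^ 2 := by
    have h1 : S.card ≤ D := by
      have h2 : S ⊆ Finset.Ioc D (2 * D) := by
        intro d hd
        rw [Finset.mem_Ioc]
        exact ⟨(p13 d hd).1, (p13 d hd).2.1⟩
      have h3 := Finset.card_le_card h2
      rw [Nat.card_Ioc] at h3
      omega
    have h4 : T.card ≤ D * D := by
      calc T.card ≤ (S ×ˢ S).card := Finset.card_filter_le _ _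
        _ = S.card * S.card := Finset.card_product _ _
        _ ≤ D * D := Nat.mul_le_mul h1 h1
    calc (T.card : ℝ) ≤ ((D * D : ℕ) : ℝ) := by exact_mod_cast h4
      _ = (D : ℝ) ^ 2 := by push_cast; ring
  have hA : ∑ y ∈ T, G y / |(y.2 : ℝ) - (y.1 : ℝ)| ≤
      C₃ * ((u : ℝ) * (D : ℝ)) ^ (ε / 10) * ((u : ℝ) + (D : ℝ)) := hgs2 D u S p3 p8 p13
  have hB : ∑ y ∈ T, 1 / |(y.2 : ℝ) - (y.1 : ℝ)| ≤
      C₃ * (D : ℝ) ^ (ε / 10) * (1 + (D : ℝ)) := by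
    have h1 := hgs2 D 1 S p3 le_rfl (by
      intro d hd
      obtain ⟨a1, a2, a3, a4⟩ := p13 d hd
      exact ⟨a1, a2, a3, fun h => a3.one_lt.ne' (Nat.dvd_one.1 h)⟩)
    simp only [Nat.cast_one, one_mul, Int.gcd_one_right] at h1
    exact h1
  have hsplit : (F.card : ℝ) = ∑ y ∈ T, ((F.filter (fun x => x.2 = y)).card : ℝ) := by
    have h1 := Finset.card_eq_sum_card_fiberwise (f := fun x : ℕ × (ℕ × ℕ) => x.2)
      (s := F) (t := T) (fun x hx => hmaps x hx)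
    rw [h1]
    push_cast
    rfl
  obtain ⟨l, hl⟩ : ∃ l : ℝ, l = ((g : ℝ) * N / H) ^ 2 := ⟨_, rfl⟩
  have hl1 : 1 ≤ l := by
    rw [hl]
    apply one_le_pow₀
    rw [le_div_iff₀ (by linarith)]
    nlinarith
  rw [← hl] at hone ⊢
  obtain ⟨Y, hY⟩ : ∃ Y : ℝ, Y = (N : ℝ) ^ (ε / 2) := ⟨_, rfl⟩
  have hY1 : 1 ≤ Y := by
    rw [hY]
    exact Real.one_le_rpow hN0 (by linarith)
  have hYY : (N : ℝ) ^ ε = Y * Y := by
    rw [hY, ← Real.rpow_add (by linarith)]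
    congr 1
    ring
  have hu8 : (u : ℝ) ^ (ε / 8) ≤ Y := by
    calc (u : ℝ) ^ (ε / 8) ≤ ((N : ℝ) ^ 4) ^ (ε / 8) := by gcongr
      _ = (N : ℝ) ^ (ε / 2) := by
        rw [← Real.rpow_natCast, ← Real.rpow_mul (by linarith)]
        congr 1
        push_cast
        ring
      _ = Y := hY.symm
  have huD : ((u : ℝ) * (D : ℝ)) ^ (ε / 10) ≤ Y := by
    have h1 : (u : ℝ) * D ≤ (N : ℝ) ^ 5 := by
      calc (u : ℝ) * D ≤ (N : ℝ) ^ 4 * N := by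
            have : (D : ℝ) ≤ N := by linarith
            gcongr
        _ = (N : ℝ) ^ 5 := by ring
    calc ((u : ℝ) * (D : ℝ)) ^ (ε / 10) ≤ ((N : ℝ) ^ 5) ^ (ε / 10) := by gcongr
      _ = (N : ℝ) ^ (ε / 2) := by
        rw [← Real.rpow_natCast, ← Real.rpow_mul (by linarith)]
        congr 1
        push_cast
        ring
      _ = Y := hY.symm
  have hDe : (D : ℝ) ^ (ε / 10) ≤ Y := by
    refine le_trans ?_ huD
    have : (D : ℝ) ≤ u * D := by nlinarith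
    gcongr
  have s1 : ∑ _y ∈ T, (1 : ℝ) ≤ W * D := by
    rw [Finset.sum_const, nsmul_eq_mul, mul_one]
    refine hTcard.trans ?_
    nlinarith
  have s2 : ∑ _y ∈ T, 204800 * W * (D : ℝ) ^ 2 / (N : ℝ) ^ 2 ≤ 204800 * (W * D) := by
    rw [Finset.sum_const, nsmul_eq_mul]
    calc (T.card : ℝ) * (204800 * W * (D : ℝ) ^ 2 / (N : ℝ) ^ 2) ≤
        (D : ℝ) ^ 2 * (204800 * W * (D : ℝ) ^ 2 / (N : ℝ) ^ 2) := by gcongr
      _ = 204800 * (W * D) * ((D : ℝ) ^ 3 / (N : ℝ) ^ 2) := by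
          field_simp
      _ ≤ 204800 * (W * D) * 1 := by
          gcongr
          rw [div_le_one (by positivity)]
          exact hD3
      _ = _ := by ring
  have s3 : ∑ _y ∈ T, C₀ * W / (K : ℝ) ^ 2 ≤ C₀ * (W * D) := by
    rw [Finset.sum_const, nsmul_eq_mul]
    calc (T.card : ℝ) * (C₀ * W / (K : ℝ) ^ 2) ≤
        (D : ℝ) ^ 2 * (C₀ * W / (K : ℝ) ^ 2) := by gcongr
      _ = C₀ * (W * D) * ((D : ℝ) / (K : ℝ) ^ 2) := by
          field_simp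
      _ ≤ C₀ * (W * D) * 1 := by
          gcongr
          rw [div_le_one (by positivity)]
          exact hDK
      _ = _ := by ring
  have s4 : ∑ y ∈ T, 275 * C₀ * l * (N * D / W) * (G y / |(y.2 : ℝ) - (y.1 : ℝ)|) ≤
      2200 * C₀ * C₃ * Y * (l * (W * D)) := by
    rw [← Finset.mul_sum]
    calc 275 * C₀ * l * (N * D / W) * ∑ y ∈ T, G y / |(y.2 : ℝ) - (y.1 : ℝ)| ≤
        275 * C₀ * l * (N * D / W) * (C₃ * Y * (W + W)) := by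
          refine mul_le_mul_of_nonneg_left (hA.trans ?_) (by positivity)
          gcongr
      _ = 275 * C₀ * l * D * (C₃ * Y * 2) * N := by
          field_simp
          ring
      _ ≤ 275 * C₀ * l * D * (C₃ * Y * 2) * (4 * W) := by gcongr
      _ = _ := by ring
  have s5 : ∑ _y ∈ T, C₀ * l * (N / (K : ℝ) ^ 2) ≤ 4 * C₀ * (l * (W * D)) := by
    rw [Finset.sum_const, nsmul_eq_mul]
    calc (T.card : ℝ) * (C₀ * l * (N / (K : ℝ) ^ 2)) ≤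
        (D : ℝ) ^ 2 * (C₀ * l * ((4 * W) / (K : ℝ) ^ 2)) := by gcongr
      _ = 4 * C₀ * (l * (W * D)) * ((D : ℝ) / (K : ℝ) ^ 2) := by
          field_simp
      _ ≤ 4 * C₀ * (l * (W * D)) * 1 := by
          gcongr
          rw [div_le_one (by positivity)]
          exact hDK
      _ = _ := by ring
  have s6 : ∑ y ∈ T, 275 * C₀ ^ 2 * l * (N * D / (K : ℝ) ^ 2) * (1 / |(y.2 : ℝ) - (y.1 : ℝ)|) ≤
      2200 * C₀ ^ 2 * C₃ * Y * (l * (W * D)) := by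
    rw [← Finset.mul_sum]
    calc 275 * C₀ ^ 2 * l * (N * D / (K : ℝ) ^ 2) * ∑ y ∈ T, 1 / |(y.2 : ℝ) - (y.1 : ℝ)| ≤
        275 * C₀ ^ 2 * l * ((4 * W) * D / (K : ℝ) ^ 2) * (C₃ * Y * (D + D)) := by
          have h1 : ∑ y ∈ T, 1 / |(y.2 : ℝ) - (y.1 : ℝ)| ≤ C₃ * Y * (D + D) := by
            refine hB.trans ?_
            gcongr
          have h2 : 0 ≤ ∑ y ∈ T, 1 / |(y.2 : ℝ) - (y.1 : ℝ)| :=
            Finset.sum_nonneg fun y _ => by positivity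
          gcongr
      _ = 2200 * C₀ ^ 2 * C₃ * Y * (l * (W * D)) * ((D : ℝ) / (K : ℝ) ^ 2) := by
          field_simp
          ring
      _ ≤ 2200 * C₀ ^ 2 * C₃ * Y * (l * (W * D)) * 1 := by
          gcongr
          rw [div_le_one (by positivity)]
          exact hDK
      _ = _ := by ring
  have hWD : 0 ≤ W * D := by positivity
  have hlWD : W * D ≤ Y * (l * (W * D)) := by
    have h1 : 1 ≤ Y * l := by nlinarith
    nlinarith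
  have hlWD2 : l * (W * D) ≤ Y * (l * (W * D)) := by
    have h1 : 0 ≤ l * (W * D) := by positivity
    nlinarith
  calc (F.card : ℝ) ≤ ∑ y ∈ T, C₂ * (u : ℝ) ^ (ε / 8) *
        (1 + 204800 * W * (D : ℝ) ^ 2 / (N : ℝ) ^ 2 +
        C₀ * W / (K : ℝ) ^ 2 +
        275 * C₀ * l * (N * D / W) * (G y / |(y.2 : ℝ) - (y.1 : ℝ)|) +
        C₀ * l * (N / (K : ℝ) ^ 2) +
        275 * C₀ ^ 2 * l * (N * D / (K : ℝ) ^ 2) * (1 / |(y.2 : ℝ) - (y.1 : ℝ)|)) := by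
        rw [hsplit]
        exact Finset.sum_le_sum hone
    _ = C₂ * (u : ℝ) ^ (ε / 8) * (∑ _y ∈ T, (1 : ℝ) +
        ∑ _y ∈ T, 204800 * W * (D : ℝ) ^ 2 / (N : ℝ) ^ 2 +
        ∑ _y ∈ T, C₀ * W / (K : ℝ) ^ 2 +
        ∑ y ∈ T, 275 * C₀ * l * (N * D / W) * (G y / |(y.2 : ℝ) - (y.1 : ℝ)|) +
        ∑ _y ∈ T, C₀ * l * (N / (K : ℝ) ^ 2) +
        ∑ y ∈ T, 275 * C₀ ^ 2 * l * (N * D / (K : ℝ) ^ 2) * (1 / |(y.2 : ℝ) - (y.1 : ℝ)|)) := by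
        rw [← Finset.mul_sum]
        congr 1
        simp only [Finset.sum_add_distrib]
    _ ≤ C₂ * Y * (W * D + 204800 * (W * D) + C₀ * (W * D) +
        2200 * C₀ * C₃ * Y * (l * (W * D)) + 4 * C₀ * (l * (W * D)) +
        2200 * C₀ ^ 2 * C₃ * Y * (l * (W * D))) := by
        have h0 : 0 ≤ W * D + 204800 * (W * D) + C₀ * (W * D) +
          2200 * C₀ * C₃ * Y * (l * (W * D)) + 4 * C₀ * (l * (W * D)) +
          2200 * C₀ ^ 2 * C₃ * Y * (l * (W * D)) := by positivity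
        have h1 : ∑ _y ∈ T, (1 : ℝ) +
            ∑ _y ∈ T, 204800 * W * (D : ℝ) ^ 2 / (N : ℝ) ^ 2 +
            ∑ _y ∈ T, C₀ * W / (K : ℝ) ^ 2 +
            ∑ y ∈ T, 275 * C₀ * l * (N * D / W) * (G y / |(y.2 : ℝ) - (y.1 : ℝ)|) +
            ∑ _y ∈ T, C₀ * l * (N / (K : ℝ) ^ 2) +
            ∑ y ∈ T, 275 * C₀ ^ 2 * l * (N * D / (K : ℝ) ^ 2) *
              (1 / |(y.2 : ℝ) - (y.1 : ℝ)|) ≤
            W * D + 204800 * (W * D) + C₀ * (W * D) +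
            2200 * C₀ * C₃ * Y * (l * (W * D)) + 4 * C₀ * (l * (W * D)) +
            2200 * C₀ ^ 2 * C₃ * Y * (l * (W * D)) := by linarith
        calc _ ≤ C₂ * (u : ℝ) ^ (ε / 8) * (W * D + 204800 * (W * D) + C₀ * (W * D) +
            2200 * C₀ * C₃ * Y * (l * (W * D)) + 4 * C₀ * (l * (W * D)) +
            2200 * C₀ ^ 2 * C₃ * Y * (l * (W * D))) :=
              mul_le_mul_of_nonneg_left h1 (by positivity)
          _ ≤ _ := by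
              refine mul_le_mul_of_nonneg_right ?_ h0
              exact mul_le_mul_of_nonneg_left hu8 hC₂.le
    _ ≤ C₂ * Y * ((204801 + 5 * C₀ + 2200 * C₀ * C₃ + 2200 * C₀ ^ 2 * C₃) *
          (Y * (l * (W * D)))) := by
        refine mul_le_mul_of_nonneg_left ?_ (by positivity)
        have h1 : C₀ * (W * D) ≤ C₀ * (Y * (l * (W * D))) :=
          mul_le_mul_of_nonneg_left hlWD hC₀.le
        have h2 : C₀ * (l * (W * D)) ≤ C₀ * (Y * (l * (W * D))) :=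
          mul_le_mul_of_nonneg_left hlWD2 hC₀.le
        have e1 : 2200 * C₀ * C₃ * Y * (l * (W * D)) =
          2200 * C₀ * C₃ * (Y * (l * (W * D))) := by ring
        have e2 : 2200 * C₀ ^ 2 * C₃ * Y * (l * (W * D)) =
          2200 * C₀ ^ 2 * C₃ * (Y * (l * (W * D))) := by ring
        rw [e1, e2]
        linarith
    _ = _ := by
        rw [hYY]
        ring

end Pool.Agent.VM5.H39
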