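import Mathlib
import Pool.Agent.VM5.Stmts

/-!
# WD2 and PRU
-/

set_option autoImplicit false

namespace Pool.Agent.VM5.H39

open Pool.Agent.Helper69_Weyl (ee)
open Pool.Agent.VM (Nr)

/-- WD2: two Weyl steps -/
theorem wd2 (wd1 : Wd1Stmt) : Wd2Stmt := by
  intro f N
  set A : ℕ → ℝ := fun h => ‖∑ n ∈ Finset.Icc (1 : ℤ) ((N : ℤ) - (h : ℤ)),
        ee (f (n + (h : ℤ)) - f n)‖ with hA
  set B : ℕ → ℕ → ℝ := fun h₁ h₂ => ‖∑ n ∈ Finset.Icc (1 : ℤ) ((N : ℤ) - (h₁ : ℤ) - (h₂ : ℤ)),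
          ee (f (n + (h₁ : ℤ) + (h₂ : ℤ)) - f (n + (h₁ : ℤ)) - f (n + (h₂ : ℤ)) + f n)‖ with hB
  have hB0 : ∀ h₁ h₂, 0 ≤ B h₁ h₂ := fun h₁ h₂ => norm_nonneg _
  have h1 : ‖∑ n ∈ Finset.Icc (1 : ℤ) (N : ℤ), ee (f n)‖ ^ 2 ≤
      (N : ℝ) + 2 * ∑ h ∈ Finset.Icc 1 N, A h := wd1 f N
  have h2 : ∀ h ∈ Finset.Icc 1 N, A h ^ 2 ≤ (N : ℝ) + 2 * ∑ h' ∈ Finset.Icc 1 N, B h h' := by
    intro h hh
    rw [Finset.mem_Icc] at hh
    have h3 := wd1 (fun n => f (n + (h : ℤ)) - f n) (N - h)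
    have e1 : ((N - h : ℕ) : ℤ) = (N : ℤ) - (h : ℤ) := by
      push_cast [Nat.cast_sub hh.2]; ring
    rw [e1] at h3
    have e2 : ∀ h' : ℕ, (∑ n ∈ Finset.Icc (1 : ℤ) ((N : ℤ) - (h : ℤ) - (h' : ℤ)),
        ee ((fun n => f (n + (h : ℤ)) - f n) (n + (h' : ℤ)) - (fun n => f (n + (h : ℤ)) - f n) n)) =
        ∑ n ∈ Finset.Icc (1 : ℤ) ((N : ℤ) - (h : ℤ) - (h' : ℤ)),
          ee (f (n + (h : ℤ) + (h' : ℤ)) - f (n + (h : ℤ)) - f (n + (h' : ℤ)) + f n) := by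
      intro h'
      apply Finset.sum_congr rfl
      intro n _
      congr 1
      simp only
      have : n + (h' : ℤ) + (h : ℤ) = n + (h : ℤ) + (h' : ℤ) := by ring
      rw [this]
      ring
    simp only [e2] at h3
    have e3 : ((N - h : ℕ) : ℝ) ≤ (N : ℝ) := by exact_mod_cast Nat.sub_le N h
    have e4 : ∑ h' ∈ Finset.Icc 1 (N - h), B h h' ≤ ∑ h' ∈ Finset.Icc 1 N, B h h' := by
      apply Finset.sum_le_sum_of_subset_of_nonneg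
      · exact Finset.Icc_subset_Icc_right (Nat.sub_le N h)
      · intro i _ _; exact hB0 h i
    calc A h ^ 2 ≤ ((N - h : ℕ) : ℝ) + 2 * ∑ h' ∈ Finset.Icc 1 (N - h), B h h' := h3
      _ ≤ _ := by linarith
  have h4 : (∑ h ∈ Finset.Icc 1 N, A h) ^ 2 ≤ (N : ℝ) * ∑ h ∈ Finset.Icc 1 N, A h ^ 2 := by
    have := sq_sum_le_card_mul_sum_sq (s := Finset.Icc 1 N) (f := A)
    rwa [Nat.card_Icc, Nat.add_sub_cancel] at this
  have h5 : ∑ h ∈ Finset.Icc 1 N, A h ^ 2 ≤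
      (N : ℝ) * N + 2 * ∑ h₁ ∈ Finset.Icc 1 N, ∑ h₂ ∈ Finset.Icc 1 N, B h₁ h₂ := by
    calc ∑ h ∈ Finset.Icc 1 N, A h ^ 2 ≤
          ∑ h ∈ Finset.Icc 1 N, ((N : ℝ) + 2 * ∑ h' ∈ Finset.Icc 1 N, B h h') :=
          Finset.sum_le_sum h2
      _ = _ := by
        rw [Finset.sum_add_distrib, Finset.sum_const, Nat.card_Icc, Nat.add_sub_cancel,
          nsmul_eq_mul, Finset.mul_sum]
  have hN0 : (0 : ℝ) ≤ N := by positivity
  have hX0 : 0 ≤ ∑ h ∈ Finset.Icc 1 N, A h := Finset.sum_nonneg (fun h _ => norm_nonneg _)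
  have hN3 : (N : ℝ) ^ 2 ≤ (N : ℝ) ^ 3 := by
    rcases Nat.eq_zero_or_pos N with h0 | h0
    · rw [h0]; simp
    · have : (1 : ℝ) ≤ N := by exact_mod_cast h0
      exact pow_le_pow_right₀ this (by norm_num)
  set X := ∑ h ∈ Finset.Icc 1 N, A h with hX
  set Y := ∑ h₁ ∈ Finset.Icc 1 N, ∑ h₂ ∈ Finset.Icc 1 N, B h₁ h₂ with hY
  have h6 : X ^ 2 ≤ (N : ℝ) * ((N : ℝ) * N + 2 * Y) :=
    h4.trans (mul_le_mul_of_nonneg_left h5 hN0)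
  calc ‖∑ n ∈ Finset.Icc (1 : ℤ) (N : ℤ), ee (f n)‖ ^ 4
      = (‖∑ n ∈ Finset.Icc (1 : ℤ) (N : ℤ), ee (f n)‖ ^ 2) ^ 2 := by ring
    _ ≤ ((N : ℝ) + 2 * X) ^ 2 := by gcongr
    _ ≤ 2 * (N : ℝ) ^ 2 + 8 * X ^ 2 := by nlinarith [sq_nonneg ((N : ℝ) - 2 * X)]
    _ ≤ 2 * (N : ℝ) ^ 3 + 8 * ((N : ℝ) * ((N : ℝ) * N + 2 * Y)) := by linarith
    _ = 10 * (N : ℝ) ^ 3 + 16 * (N : ℝ) * Y := by ring

/-- PRU: primes in `(D, 2 D]` which do not divide `u` -/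
theorem pru (prm : VM.PrmStmt) (pdv : VM.PdvStmt) : PruStmt := by
  intro A ε hε
  set δ : ℝ := min ε 1 / 2 with hδ
  have hm0 : 0 < min ε 1 := lt_min hε (by norm_num)
  have hδ0 : 0 < δ := by rw [hδ]; linarith
  have hδ1 : 2 * δ ≤ ε := by
    have := min_le_left ε 1
    rw [hδ]; linarith
  have hδ2 : 2 * δ ≤ 1 := by
    have := min_le_right ε 1
    rw [hδ]; linarith
  obtain ⟨D₁, hD₁⟩ := prm δ hδ0
  obtain ⟨D₂, hD₂⟩ := exists_nat_ge (((A : ℝ) + 1) ^ (1 / δ))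
  refine ⟨max D₁ (max D₂ 2), fun D u hD hu huD => ?_⟩
  have hDD1 : D₁ ≤ D := le_trans (le_max_left _ _) hD
  have hDD2 : D₂ ≤ D := le_trans (le_trans (le_max_left _ _) (le_max_right _ _)) hD
  have hDD3 : 2 ≤ D := le_trans (le_trans (le_max_right _ _) (le_max_right _ _)) hD
  have hDr : (2 : ℝ) ≤ D := by exact_mod_cast hDD3
  have hD1 : (1 : ℝ) ≤ D := by linarith
  have h1 := hD₁ D hDD1
  have h2 := pdv D A u hDD3 hu huD
  have hcard : ((Finset.Ioc D (2 * D)).filter Nat.Prime).card ≤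
      ((Finset.Ioc D (2 * D)).filter (fun d => d.Prime ∧ ¬ d ∣ u)).card +
      ((Finset.Ioc D (2 * D)).filter (fun d => d.Prime ∧ d ∣ u)).card := by
    refine le_trans (Finset.card_le_card ?_) (Finset.card_union_le _ _)
    intro d hd
    rw [Finset.mem_filter] at hd
    rw [Finset.mem_union, Finset.mem_filter, Finset.mem_filter]
    by_cases h : d ∣ u
    · exact Or.inr ⟨hd.1, hd.2, h⟩
    · exact Or.inl ⟨hd.1, hd.2, h⟩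
  have h3 : (A : ℝ) + 1 ≤ (D : ℝ) ^ δ := by
    have h0 : (0 : ℝ) ≤ (A : ℝ) + 1 := by positivity
    calc (A : ℝ) + 1 = (((A : ℝ) + 1) ^ (1 / δ)) ^ δ := by
          rw [← Real.rpow_mul h0, one_div, inv_mul_cancel₀ hδ0.ne', Real.rpow_one]
      _ ≤ (D : ℝ) ^ δ := by
          apply Real.rpow_le_rpow (by positivity) _ hδ0.le
          exact hD₂.trans (by exact_mod_cast hDD2)
  have h4 : (1 : ℝ) ≤ (D : ℝ) ^ (1 - 2 * δ) := Real.one_le_rpow hD1 (by linarith)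
  have h5 : (D : ℝ) ^ (1 - δ) = (D : ℝ) ^ δ * (D : ℝ) ^ (1 - 2 * δ) := by
    rw [← Real.rpow_add (by linarith)]; congr 1; ring
  have h6 : (D : ℝ) ^ (1 - ε) ≤ (D : ℝ) ^ (1 - 2 * δ) :=
    Real.rpow_le_rpow_of_exponent_le hD1 (by linarith)
  have h7 : (((Finset.Ioc D (2 * D)).filter Nat.Prime).card : ℝ) ≤
      (((Finset.Ioc D (2 * D)).filter (fun d => d.Prime ∧ ¬ d ∣ u)).card : ℝ) + (A : ℝ) := by
    have : ((Finset.Ioc D (2 * D)).filter Nat.Prime).card ≤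
      ((Finset.Ioc D (2 * D)).filter (fun d => d.Prime ∧ ¬ d ∣ u)).card + A := by omega
    exact_mod_cast this
  have hA0 : (0 : ℝ) ≤ A := by positivity
  nlinarith [mul_le_mul_of_nonneg_right h3 (by linarith : (0 : ℝ) ≤ (D : ℝ) ^ (1 - 2 * δ))]

end Pool.Agent.VM5.H39
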